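import Mathlib

/-!
Local density theorem for the zeros of the Riemann zeta function (MP_4467b5_nt): definitions.
-/

set_option autoImplicit false

open Complex Metric

namespace Pool.Agent.helper6.LD

/-- Number of zeros of the Riemann zeta function in the set `S`, counted with multiplicity
(for sets `S` that contain only finitely many zeros, e.g. bounded sets). -/
noncomputable def zc (S : Set ℂ) : ℕ :=
  ∑ᶠ ρ ∈ {ρ : ℂ | ρ ∈ S ∧ riemannZeta ρ = 0}, analyticOrderNatAt riemannZeta ρ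

/-- The point `ρ` is exposed with parameters `lam`, `M` : there are a centre `z = M + i y`
on the line `Re z = M` with `|y - Im ρ| ≤ √(lam M) / 2` and a depth `τ ≤ 1/16` such that the closed
disc with centre `z` and radius `|z - ρ| + τ` contains at most `lam τ log (Im ρ)` distinct zeros of
the zeta function, where `lam τ log (Im ρ) ≥ log log (Im ρ)`. -/
def Exposed (lam M : ℝ) (ρ : ℂ) : Prop :=
  ∃ y τ : ℝ, (y - ρ.im) ^ 2 ≤ lam * M / 4 ∧ τ ≤ 1 / 16 ∧
    Real.log (Real.log ρ.im) ≤ lam * τ * Real.log ρ.im ∧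
    ({s : ℂ | s ∈ closedBall ((M : ℂ) + y * I) (dist ((M : ℂ) + y * I) ρ + τ) ∧
        riemannZeta s = 0}.ncard : ℝ) ≤ lam * τ * Real.log ρ.im

/-- The weight `Λ(n) (log n)^(k-1) / (k-1)! · n^(-M)`. -/
noncomputable def wt (M : ℝ) (k n : ℕ) : ℝ :=
  ArithmeticFunction.vonMangoldt n * Real.log n ^ (k - 1) / (k - 1).factorial * (n : ℝ) ^ (-M)

/-- The Dirichlet polynomial `∑_{1 ≤ n ≤ N} a n · n^(-i t)`. -/
noncomputable def dp (N : ℕ) (a : ℕ → ℂ) (t : ℝ) : ℂ :=
  ∑ n ∈ Finset.Icc 1 N, a n * (n : ℂ) ^ (-(t * I))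

end Pool.Agent.helper6.LD
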